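import Pool.Agent.Helper24.FF.Stmts

/-! hf_mods LG: ladders with the good parity are circle graphs. -/

set_option autoImplicit false

namespace Pool.Agent.Helper24.FF

open Pool.Agent.Helper64.CT Pool.Agent.Helper64.DT Pool.Agent.Helper64.FL
open Pool.Agent.Helper64.HG (Ovl Model Circ IC HellyCircle ChordModel)

theorem lg_aux (hM0 : ST_M0) (hRUN : ST_RUN) (hM3 : ST_M3) (hIPX : ST_IPX) (hRUB : ST_RUB)
    {V : Type} (G : SimpleGraph V) (h k : V) (M : List V) (b : Bool) (hL : LadM G h k M true b)
    (hp : b = true ↔ Even (rungs G h k M)) : CE G ({h, k} ∪ LS M) := by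
  classical
  obtain ⟨p, N, q, rfl⟩ : ∃ p N q, M = p :: (N ++ [q]) := by
    have h2 := hL.two
    cases M with
    | nil => simp at h2
    | cons p M' =>
      cases hM' : M'.reverse with
      | nil =>
        have : M' = [] := by simpa using hM'
        subst this
        simp at h2
      | cons q N' =>
        refine ⟨p, N'.reverse, q, ?_⟩
        have h3 : M' = (q :: N').reverse := by rw [← hM', List.reverse_reverse]
        rw [h3, List.reverse_cons]
  obtain ⟨i1, i2, -, -, -⟩ := hIPX V G
  obtain ⟨r0, r1, r2, r3, -, -, -⟩ := hRUB V G h k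
  have hne := hL.ne
  have hnadj := hL.nadj
  have hmem : ∀ x, x ∈ p :: (N ++ [q]) ↔ x = p ∨ x ∈ N ∨ x = q := by
    intro x
    rw [List.mem_cons, List.mem_append, List.mem_singleton]
  have hph : p ≠ h := fun e => hL.hM (by rw [← e]; exact List.mem_cons_self)
  have hpk : p ≠ k := fun e => hL.kM (by rw [← e]; exact List.mem_cons_self)
  have hqh : q ≠ h := fun e => hL.hM ((hmem h).2 (Or.inr (Or.inr e.symm)))
  have hqk : q ≠ k := fun e => hL.kM ((hmem k).2 (Or.inr (Or.inr e.symm)))
  have hNh : ∀ x ∈ N, x ≠ h := fun x hx e => hL.hM ((hmem h).2 (Or.inr (Or.inl (e ▸ hx))))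
  have hNk : ∀ x ∈ N, x ≠ k := fun x hx e => hL.kM ((hmem k).2 (Or.inr (Or.inl (e ▸ hx))))
  have hf := hL.fst p (by simp)
  have hhp : G.Adj h p := hf.1.2 rfl
  have hkp : ¬ G.Adj k p := fun e => by simpa using hf.2.1 e
  have hlast : (p :: (N ++ [q])).getLast? = some q := by
    rw [← List.cons_append, List.getLast?_concat]
  have hl := hL.lst q (by rw [hlast]; rfl)
  have hF := (hM0 V G h k hne hnadj).2 p hph hpk hhp hkp
  have hIP : IPt G ((p :: N) ++ [q]) := hL.ip
  obtain ⟨hI1, hI2, hI3⟩ := i1 _ _ hIP
  have hpN : ∀ x ∈ N, x ≠ p := fun x hx e => by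
    have := hI1.1 x hx
    exact this e.symm
  have hxq : ∀ x ∈ p :: N, x ≠ q := fun x hx => hI3 x hx q (by simp)
  obtain ⟨w, hw⟩ : ∃ w, (p :: N).getLast? = some w := by
    cases hh : (p :: N).getLast? with
    | none => simp at hh
    | some w => exact ⟨w, rfl⟩
  have hwm : w ∈ p :: N := List.mem_of_getLast? hw
  have hR := hRUN V G {p, h, k} h k p w N hF hI1
    (by
      intro x hx hx'
      simp only [Set.mem_insert_iff, Set.mem_singleton_iff] at hx'
      rcases hx' with e | e | e
      · exact hpN x hx e
      · exact hNh x hx e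
      · exact hNk x hx e)
    (by
      intro x hx
      refine hL.mid x ((hmem x).2 (Or.inr (Or.inl hx))) ?_ ?_
      · intro e
        have e' : p = x := by simpa using e
        exact hpN x hx e'.symm
      · intro e
        rw [hlast] at e
        have e' : q = x := by simpa using e
        exact hxq x (List.mem_cons_of_mem _ hx) e'.symm)
    (by
      intro x _ y hy h1 h2 h3
      simp only [Set.mem_insert_iff, Set.mem_singleton_iff] at hy
      rcases hy with e | e | e
      · exact absurd e h3
      · exact absurd e h1
      · exact absurd e h2) hw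
  have hqS : q ∉ ({p, h, k} : Set V) ∪ LS N := by
    rintro (hx | hx)
    · simp only [Set.mem_insert_iff, Set.mem_singleton_iff] at hx
      rcases hx with e | e | e
      · exact hxq p (by simp) e.symm
      · exact hqh e
      · exact hqk e
    · exact hxq q (List.mem_cons_of_mem _ hx) rfl
  have hqy : ∀ y ∈ p :: N, (G.Adj q y ↔ y = w) := by
    intro y hy
    have h1 := i2 (p :: N) [] q y hIP (List.mem_append_left _ hy)
    rw [h1, hw]
    constructor
    · rintro (e | e)
      · exact (Option.some_injective _ e).symm
      · simp at e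
    · intro e
      rw [e]
      exact Or.inl rfl
  have hwh : h ≠ w := by
    intro e
    rcases List.mem_cons.1 hwm with e' | e'
    · exact hph (e'.symm.trans e.symm)
    · exact hNh w e' e.symm
  have hwk : k ≠ w := by
    intro e
    rcases List.mem_cons.1 hwm with e' | e'
    · exact hpk (e'.symm.trans e.symm)
    · exact hNk w e' e.symm
  have hset : ({h, k} : Set V) ∪ LS (p :: (N ++ [q])) = insert q (({p, h, k} : Set V) ∪ LS N) := by
    ext x
    have hx1 : x ∈ LS (p :: (N ++ [q])) ↔ x = p ∨ x ∈ N ∨ x = q := hmem x
    have hx2 : x ∈ LS N ↔ x ∈ N := Iff.rfl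
    simp only [Set.mem_union, Set.mem_insert_iff, Set.mem_singleton_iff, hx1, hx2]
    constructor
    · rintro ((e | e) | e | e | e)
      · exact Or.inr (Or.inl (Or.inr (Or.inl e)))
      · exact Or.inr (Or.inl (Or.inr (Or.inr e)))
      · exact Or.inr (Or.inl (Or.inl e))
      · exact Or.inr (Or.inr e)
      · exact Or.inl e
    · rintro (e | (e | e | e) | e)
      · exact Or.inr (Or.inr (Or.inr e))
      · exact Or.inr (Or.inl e)
      · exact Or.inl (Or.inl e)
      · exact Or.inl (Or.inr e)
      · exact Or.inr (Or.inr (Or.inl e))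
  have hrM : rungs G h k (p :: (N ++ [q])) = rungs G h k N := by
    rw [r2 p _ (fun e => hkp e.2), r3]
    have hq0 : rungs G h k [q] = 0 := by
      rw [r2 q [] (fun e => ?_), r0]
      have e1 := hl.1.1 e.1
      have e2 := hl.2.1 e.2
      rw [e1] at e2
      exact absurd e2 (by simp)
    rw [hq0, add_zero]
  rw [hrM] at hp
  rw [hset]
  by_cases hE : Even (rungs G h k N)
  · rw [if_pos hE, if_pos hE] at hR
    have hb : b = true := hp.2 hE
    refine hM3 V G _ h k w q hR hqS ?_
    intro y hy
    have hqh' : G.Adj q h := (hl.1.2 hb).symm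
    have hqk' : ¬ G.Adj q k := fun e => by
      have := hl.2.1 e.symm
      rw [hb] at this
      exact absurd this (by simp)
    rcases hy with hy | hy
    · simp only [Set.mem_insert_iff, Set.mem_singleton_iff] at hy
      rcases hy with rfl | rfl | rfl
      · rw [hqy y (by simp)]
        constructor
        · exact Or.inl
        · rintro (e | e)
          · exact e
          · exact absurd e hph
      · exact ⟨fun _ => Or.inr rfl, fun _ => hqh'⟩
      · constructor
        · intro e; exact absurd e hqk'
        · rintro (e | e)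
          · exact absurd e hwk
          · exact absurd e hne.symm
    · rw [hqy y (List.mem_cons_of_mem _ hy)]
      constructor
      · exact Or.inl
      · rintro (e | e)
        · exact e
        · exact absurd e (hNh y hy)
  · rw [if_neg hE, if_neg hE] at hR
    have hb : b = false := by
      cases hbb : b with
      | false => rfl
      | true => exact absurd (hp.1 hbb) hE
    refine hM3 V G _ k h w q hR hqS ?_
    intro y hy
    have hqk' : G.Adj q k := (hl.2.2 hb).symm
    have hqh' : ¬ G.Adj q h := fun e => by
      have := hl.1.1 e.symm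
      rw [hb] at this
      exact absurd this (by simp)
    rcases hy with hy | hy
    · simp only [Set.mem_insert_iff, Set.mem_singleton_iff] at hy
      rcases hy with rfl | rfl | rfl
      · rw [hqy y (by simp)]
        constructor
        · exact Or.inl
        · rintro (e | e)
          · exact e
          · exact absurd e hpk
      · constructor
        · intro e; exact absurd e hqh'
        · rintro (e | e)
          · exact absurd e hwh
          · exact absurd e hne
      · exact ⟨fun _ => Or.inr rfl, fun _ => hqk'⟩
    · rw [hqy y (List.mem_cons_of_mem _ hy)]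
      constructor
      · exact Or.inl
      · rintro (e | e)
        · exact e
        · exact absurd e (hNk y hy)

theorem st_LG (hM0 : ST_M0) (hRUN : ST_RUN) (hM3 : ST_M3) (hLSY : ST_LSY) (hRUB : ST_RUB)
    (hIPX : ST_IPX) : ST_LG := by
  intro V G h k M a b hL hp
  cases a with
  | true => exact lg_aux hM0 hRUN hM3 hIPX hRUB G h k M b hL (eq_comm.trans hp)
  | false =>
    have h1 := (hLSY V G h k M false b hL).1
    obtain ⟨-, -, -, -, -, r5, -⟩ := hRUB V G h k
    have h2 := lg_aux hM0 hRUN hM3 hIPX hRUB G k h M (!b) h1 (by
      rw [r5 M, ← hp]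
      cases b <;> simp)
    have e : ({k, h} : Set V) = {h, k} := Set.pair_comm k h
    rwa [e] at h2

end Pool.Agent.Helper24.FF
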